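import Mathlib

/-!
# Universal partial words: well-defined diamondicity, pseudocyclic and cyclic are equivalent

For every finite alphabet with at least two letters (in particular for `{0, 1}`) and every nontrivial
universal partial word the three notions coincide.
-/

set_option autoImplicit false

namespace Pool.Agent.Results.MP_e9025c_co.CyclicityEquivalence

variable {A : Type}

/-- The word `u` is covered by the partial word `w` (`none` is the wild card) at place `i`
(places are counted from `0`): the block of `w` of length `|u|` at place `i` exists, and each of its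
characters is the wild card or the corresponding letter of `u`. -/
def CoveredAt (w : List (Option A)) (u : List A) (i : ℕ) : Prop :=
  i + u.length ≤ w.length ∧ ∀ j, j < u.length → (w[i + j]? = some none ∨ w[i + j]? = some u[j]?)

/-- `w` is a universal partial word for `A^n`: every word of length `n` is covered by `w` at exactly
one place. -/
def Universal (n : ℕ) (w : List (Option A)) : Prop :=
  ∀ u : List A, u.length = n → ∃! i, CoveredAt w u i

/-- `w` is trivial: it is `◇^n` or it contains no `◇` -/
def Trivial (n : ℕ) (w : List (Option A)) : Prop :=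
  w = List.replicate n none ∨ none ∉ w

/-- `w` has well-defined diamondicity: all its blocks of length `n` contain the same number of
symbols `◇`. -/
def WellDefined (n : ℕ) (w : List (Option A)) : Prop :=
  ∃ d : ℕ, ∀ b : List (Option A), b <:+: w → b.length = n → b.countP Option.isNone = d

/-- `w` is pseudocyclic: its first `n - 1` and its last `n - 1` characters form the same string. -/
def Pseudocyclic (n : ℕ) (w : List (Option A)) : Prop :=
  w.take (n - 1) = w.drop (w.length - (n - 1))

/-- `w` is cyclic: it is pseudocyclic and the two blocks do not overlap. -/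
def Cyclic (n : ℕ) (w : List (Option A)) : Prop :=
  Pseudocyclic n w ∧ (n - 1) + (n - 1) ≤ w.length

/-! ## The core: infinite sequences -/

section Core

/-- the block of `f` of length `k` at place `i` covers `u` -/
def C (f : ℕ → Option A) (i k : ℕ) (u : ℕ → A) : Prop :=
  ∀ j, j < k → f (i + j) = none ∨ f (i + j) = some (u j)

/-- put the letter `x` in front -/
def cons (x : A) (v : ℕ → A) : ℕ → A := fun j => if j = 0 then x else v (j - 1)

/-- put the letter `y` at place `m` -/
def snoc (m : ℕ) (v : ℕ → A) (y : A) : ℕ → A := fun j => if j = m then y else v j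

theorem C_cons (f : ℕ → Option A) (i m : ℕ) (x : A) (v : ℕ → A) :
    C f i (m + 1) (cons x v) ↔ (f i = none ∨ f i = some x) ∧ C f (i + 1) m v := by
  constructor
  · intro h
    refine ⟨by simpa [cons] using h 0 (by omega), ?_⟩
    intro j hj
    have := h (j + 1) (by omega)
    simp only [cons, Nat.add_eq_zero_iff, one_ne_zero, and_false, if_false,
      Nat.add_sub_cancel] at this
    rwa [show i + 1 + j = i + (j + 1) by ring]
  · rintro ⟨h1, h2⟩ j hj
    rcases Nat.eq_zero_or_pos j with h | h
    · subst h
      simpa [cons] using h1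
    · obtain ⟨k, rfl⟩ : ∃ k, j = k + 1 := ⟨j - 1, by omega⟩
      have := h2 k (by omega)
      simp only [cons, Nat.add_eq_zero_iff, one_ne_zero, and_false, if_false,
        Nat.add_sub_cancel]
      rwa [show i + (k + 1) = i + 1 + k by ring]

theorem C_snoc (f : ℕ → Option A) (i m : ℕ) (y : A) (v : ℕ → A) :
    C f i (m + 1) (snoc m v y) ↔ C f i m v ∧ (f (i + m) = none ∨ f (i + m) = some y) := by
  constructor
  · intro h
    refine ⟨?_, by simpa [snoc] using h m (by omega)⟩
    intro j hj
    have := h j (by omega)
    rw [snoc, if_neg (by omega)] at this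
    exact this
  · rintro ⟨h1, h2⟩ j hj
    rcases Nat.lt_or_ge j m with h | h
    · rw [snoc, if_neg (by omega)]
      exact h1 j h
    · have : j = m := by omega
      subst this
      simpa [snoc] using h2

/-- a letter compatible with a character -/
theorem compat [Nonempty A] (o : Option A) : ∃ x : A, o = none ∨ o = some x := by
  cases o with
  | none => exact ⟨Classical.arbitrary A, Or.inl rfl⟩
  | some x => exact ⟨x, Or.inr rfl⟩

/-- a word covered by a block -/
theorem exists_C [Nonempty A] (f : ℕ → Option A) (i k : ℕ) : ∃ v : ℕ → A, C f i k v :=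
  ⟨fun j => (compat (f (i + j))).choose, fun j _ => (compat (f (i + j))).choose_spec⟩

theorem none_of_two {o : Option A} {x y : A} (hxy : x ≠ y) (hx : o = none ∨ o = some x)
    (hy : o = none ∨ o = some y) : o = none := by
  rcases hx with h | h
  · exact h
  · rcases hy with h' | h'
    · exact h'
    · rw [h] at h'
      exact absurd (Option.some.inj h') hxy

variable {f : ℕ → Option A} {m N : ℕ}

/-- pseudocyclic implies that equal places of consecutive blocks carry wild cards together -/
theorem wd_of_pc [Nontrivial A]
    (hex : ∀ u : ℕ → A, ∃ i, i < N ∧ C f i (m + 1) u)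
    (huniq : ∀ (u : ℕ → A) (i j : ℕ), i < N → j < N → C f i (m + 1) u → C f j (m + 1) u → i = j)
    (hpc : ∀ j, j < m → f j = f (N + j)) (i : ℕ) (hi : i + 1 < N) :
    f i = none ↔ f (i + 1 + m) = none := by
  obtain ⟨a, b, hab⟩ := exists_pair_ne A
  have h0N : ∀ v : ℕ → A, C f 0 m v ↔ C f N m v := by
    intro v
    constructor
    · intro h j hj
      have := h j hj
      rw [Nat.zero_add] at this
      rwa [← hpc j hj]
    · intro h j hj
      have := h j hj
      rw [Nat.zero_add, hpc j hj]
      exact this
  constructor
  · intro hf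
    obtain ⟨v, hv⟩ := exists_C f (i + 1) m
    have hcov : ∀ x : A, C f i (m + 1) (cons x v) := fun x => (C_cons f i m x v).2 ⟨Or.inl hf, hv⟩
    have key : ∀ y : A, f (i + 1 + m) = none ∨ f (i + 1 + m) = some y := by
      intro y
      obtain ⟨p, hp, hpC⟩ := hex (snoc m v y)
      rw [C_snoc] at hpC
      obtain ⟨h1, h2⟩ := hpC
      rcases Nat.eq_zero_or_pos p with h0 | h0
      · subst h0
        rw [h0N] at h1
        exfalso
        obtain ⟨x, hx⟩ := compat (f (N - 1))
        have h3 : C f (N - 1) (m + 1) (cons x v) := by
          rw [C_cons]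
          exact ⟨hx, by rwa [show N - 1 + 1 = N by omega]⟩
        have := huniq _ _ _ (by omega) (by omega) h3 (hcov x)
        omega
      · obtain ⟨x, hx⟩ := compat (f (p - 1))
        have h3 : C f (p - 1) (m + 1) (cons x v) := by
          rw [C_cons]
          exact ⟨hx, by rwa [show p - 1 + 1 = p by omega]⟩
        have := huniq _ _ _ (by omega) (by omega) h3 (hcov x)
        have hpi : p = i + 1 := by omega
        rw [hpi] at h2
        exact h2
    exact none_of_two hab (key a) (key b)
  · intro hf
    obtain ⟨v, hv⟩ := exists_C f (i + 1) m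
    have hcov : ∀ y : A, C f (i + 1) (m + 1) (snoc m v y) :=
      fun y => (C_snoc f (i + 1) m y v).2 ⟨hv, Or.inl hf⟩
    have key : ∀ x : A, f i = none ∨ f i = some x := by
      intro x
      obtain ⟨p, hp, hpC⟩ := hex (cons x v)
      rw [C_cons] at hpC
      obtain ⟨h1, h2⟩ := hpC
      rcases Nat.lt_or_ge (p + 1) N with h0 | h0
      · obtain ⟨y, hy⟩ := compat (f (p + 1 + m))
        have h3 : C f (p + 1) (m + 1) (snoc m v y) := by
          rw [C_snoc]
          exact ⟨h2, hy⟩
        have := huniq _ _ _ (by omega) (by omega) h3 (hcov y)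
        have hpi : p = i := by omega
        rw [hpi] at h1
        exact h1
      · have hpN : p + 1 = N := by omega
        rw [hpN, ← h0N] at h2
        exfalso
        obtain ⟨y, hy⟩ := compat (f (0 + m))
        have h3 : C f 0 (m + 1) (snoc m v y) := by
          rw [C_snoc]
          exact ⟨h2, hy⟩
        have := huniq _ _ _ (by omega) (by omega) h3 (hcov y)
        omega
    exact none_of_two hab (key a) (key b)

/-- a block covered by the first block of length `m` is covered by the last one -/
theorem first_to_last [Nonempty A] [Finite A]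
    (hN : 0 < N)
    (hex : ∀ u : ℕ → A, ∃ i, i < N ∧ C f i (m + 1) u)
    (huniq : ∀ (u : ℕ → A) (i j : ℕ), i < N → j < N → C f i (m + 1) u → C f j (m + 1) u → i = j)
    (hwd : ∀ i, i + 1 < N → (f i = none ↔ f (i + 1 + m) = none)) (v : ℕ → A)
    (h0 : C f 0 m v) : C f N m v := by
  by_contra hNo
  -- the place of the left extension
  choose p hp hpC using fun x : A => hex (cons x v)
  have hp1 : ∀ x, C f (p x + 1) m v := fun x => ((C_cons f _ m x v).1 (hpC x)).2
  have hp2 : ∀ x, f (p x) = none ∨ f (p x) = some x := fun x => ((C_cons f _ m x v).1 (hpC x)).1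
  have hp3 : ∀ x, p x + 1 < N := by
    intro x
    have := hp x
    by_contra hcon
    have : p x + 1 = N := by omega
    rw [← this] at hNo
    exact hNo (hp1 x)
  -- no wild card there
  have hp4 : ∀ x, f (p x) ≠ none := by
    intro x hx
    have h1 := (hwd _ (hp3 x)).1 hx
    obtain ⟨y, hy⟩ := compat (f (0 + m))
    have h2 : C f 0 (m + 1) (snoc m v y) := (C_snoc f 0 m y v).2 ⟨h0, hy⟩
    have h3 : C f (p x + 1) (m + 1) (snoc m v y) := (C_snoc f _ m y v).2 ⟨hp1 x, Or.inl h1⟩
    have := huniq _ _ _ hN (hp3 x) h2 h3
    omega
  have hp5 : ∀ x, f (p x + 1 + m) ≠ none := fun x hx => hp4 x ((hwd _ (hp3 x)).2 hx)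
  choose φ hφ using fun x => Option.ne_none_iff_exists'.1 (hp5 x)
  have hinj : Function.Injective φ := by
    intro x x' hxx
    have h1 : C f (p x + 1) (m + 1) (snoc m v (φ x)) :=
      (C_snoc f _ m _ v).2 ⟨hp1 x, Or.inr (hφ x)⟩
    have h2 : C f (p x' + 1) (m + 1) (snoc m v (φ x)) := by
      rw [hxx]
      exact (C_snoc f _ m _ v).2 ⟨hp1 x', Or.inr (hφ x')⟩
    have h3 := huniq _ _ _ (hp3 x) (hp3 x') h1 h2
    have h4 : p x = p x' := by omega
    have h5 := (hp2 x).resolve_left (hp4 x)
    have h6 := (hp2 x').resolve_left (hp4 x')
    rw [h4, h6] at h5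
    exact (Option.some.inj h5).symm
  have hsurj : Function.Surjective φ := Finite.injective_iff_surjective.1 hinj
  obtain ⟨y, hy⟩ := compat (f (0 + m))
  obtain ⟨x, hx⟩ := hsurj y
  have h1 : C f (p x + 1) (m + 1) (snoc m v y) := by
    rw [← hx]
    exact (C_snoc f _ m _ v).2 ⟨hp1 x, Or.inr (hφ x)⟩
  have h2 : C f 0 (m + 1) (snoc m v y) := (C_snoc f 0 m y v).2 ⟨h0, hy⟩
  have := huniq _ _ _ hN (hp3 x) h2 h1
  omega

/-- a block covered by the last block of length `m` is covered by the first one -/
theorem last_to_first [Nonempty A] [Finite A]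
    (hN : 0 < N)
    (hex : ∀ u : ℕ → A, ∃ i, i < N ∧ C f i (m + 1) u)
    (huniq : ∀ (u : ℕ → A) (i j : ℕ), i < N → j < N → C f i (m + 1) u → C f j (m + 1) u → i = j)
    (hwd : ∀ i, i + 1 < N → (f i = none ↔ f (i + 1 + m) = none)) (v : ℕ → A)
    (hl : C f N m v) : C f 0 m v := by
  by_contra hNo
  choose q hq hqC using fun y : A => hex (snoc m v y)
  have hq1 : ∀ y, C f (q y) m v := fun y => ((C_snoc f _ m y v).1 (hqC y)).1
  have hq2 : ∀ y, f (q y + m) = none ∨ f (q y + m) = some y :=
    fun y => ((C_snoc f _ m y v).1 (hqC y)).2
  have hq3 : ∀ y, 0 < q y := by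
    intro y
    by_contra hcon
    have : q y = 0 := by omega
    have h := hq1 y
    rw [this] at h
    exact hNo h
  have hlast : ∃ x, C f (N - 1) (m + 1) (cons x v) := by
    obtain ⟨x, hx⟩ := compat (f (N - 1))
    refine ⟨x, (C_cons f _ m x v).2 ⟨hx, ?_⟩⟩
    rwa [show N - 1 + 1 = N by omega]
  obtain ⟨x0, hx0⟩ := hlast
  have hwd' : ∀ y, (f (q y - 1) = none ↔ f (q y + m) = none) := by
    intro y
    have h1 := hq y
    have h2 := hq3 y
    have := hwd (q y - 1) (by omega)
    rwa [show q y - 1 + 1 = q y by omega] at this
  have hq4 : ∀ y, f (q y + m) ≠ none := by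
    intro y hy
    have h1 := (hwd' y).2 hy
    have h3 : C f (q y - 1) (m + 1) (cons x0 v) := by
      refine (C_cons f _ m x0 v).2 ⟨Or.inl h1, ?_⟩
      rw [show q y - 1 + 1 = q y by have := hq3 y; omega]
      exact hq1 y
    have h4 := hq y
    have h5 := hq3 y
    have := huniq _ _ _ (by omega) (by omega) h3 hx0
    omega
  have hq5 : ∀ y, f (q y - 1) ≠ none := fun y hy => hq4 y ((hwd' y).1 hy)
  choose ψ hψ using fun y => Option.ne_none_iff_exists'.1 (hq5 y)
  have hcov : ∀ y, C f (q y - 1) (m + 1) (cons (ψ y) v) := by
    intro y
    refine (C_cons f _ m _ v).2 ⟨Or.inr (hψ y), ?_⟩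
    rw [show q y - 1 + 1 = q y by have := hq3 y; omega]
    exact hq1 y
  have hinj : Function.Injective ψ := by
    intro y y' hyy
    have h1 := hcov y
    have h2 := hcov y'
    rw [← hyy] at h2
    have hqy := hq y
    have hqy' := hq y'
    have h3 := huniq _ _ _ (by omega) (by omega) h1 h2
    have hy3 := hq3 y
    have hy3' := hq3 y'
    have h4 : q y = q y' := by omega
    have h5 := (hq2 y).resolve_left (hq4 y)
    have h6 := (hq2 y').resolve_left (hq4 y')
    rw [h4, h6] at h5
    exact (Option.some.inj h5).symm
  have hsurj : Function.Surjective ψ := Finite.injective_iff_surjective.1 hinj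
  obtain ⟨y, hy⟩ := hsurj x0
  have h1 := hcov y
  rw [hy] at h1
  have h2 := hq y
  have h3 := hq3 y
  have := huniq _ _ _ (by omega) (by omega) h1 hx0
  omega

/-- two blocks which cover the same words are equal -/
theorem block_eq [Nontrivial A] (i k : ℕ) (h : ∀ v : ℕ → A, C f i m v ↔ C f k m v) (j : ℕ)
    (hj : j < m) : f (i + j) = f (k + j) := by
  classical
  -- one inclusion at a time
  have key : ∀ i k : ℕ, (∀ v : ℕ → A, C f i m v → C f k m v) → ∀ x : A, f (k + j) = some x →
      f (i + j) = some x := by
    intro i k h x hx
    have hall : ∀ y : A, (f (i + j) = none ∨ f (i + j) = some y) → y = x := by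
      intro y hy
      obtain ⟨v, hv⟩ := exists_C f i m
      have h1 : C f i m (fun t => if t = j then y else v t) := by
        intro t ht
        dsimp only
        split_ifs with htj
        · rw [htj]; exact hy
        · exact hv t ht
      have h2 := h _ h1 j hj
      simp only [if_true] at h2
      rw [hx] at h2
      rcases h2 with h2 | h2
      · exact absurd h2 (by simp)
      · exact (Option.some.inj h2).symm
    cases hfi : f (i + j) with
    | none =>
      obtain ⟨a, b, hab⟩ := exists_pair_ne A
      have ha := hall a (Or.inl hfi)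
      have hb := hall b (Or.inl hfi)
      exact absurd (ha.trans hb.symm) hab
    | some y =>
      rw [hall y (Or.inr hfi)]
  cases hk : f (k + j) with
  | some x => exact key i k (fun v => (h v).1) x hk
  | none =>
    cases hi : f (i + j) with
    | none => rfl
    | some x =>
      have := key k i (fun v => (h v).2) x hi
      rw [hk] at this
      exact this.symm

theorem pc_of_wd [Nontrivial A] [Finite A]
    (hN : 0 < N)
    (hex : ∀ u : ℕ → A, ∃ i, i < N ∧ C f i (m + 1) u)
    (huniq : ∀ (u : ℕ → A) (i j : ℕ), i < N → j < N → C f i (m + 1) u → C f j (m + 1) u → i = j)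
    (hwd : ∀ i, i + 1 < N → (f i = none ↔ f (i + 1 + m) = none)) (j : ℕ) (hj : j < m) :
    f j = f (N + j) := by
  have := block_eq (f := f) (m := m) 0 N
    (fun v => ⟨first_to_last hN hex huniq hwd v, last_to_first hN hex huniq hwd v⟩) j hj
  simpa using this

/-- if the word is pseudocyclic and has fewer than `m + 1` blocks, all its characters are wild
cards -/
theorem all_none [Nontrivial A]
    (hex : ∀ u : ℕ → A, ∃ i, i < N ∧ C f i (m + 1) u)
    (huniq : ∀ (u : ℕ → A) (i j : ℕ), i < N → j < N → C f i (m + 1) u → C f j (m + 1) u → i = j)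
    (hpc : ∀ j, j < m → f j = f (N + j)) (hNm : N ≤ m) (i : ℕ) (hi : i < N) : f i = none := by
  classical
  obtain ⟨v, hv⟩ := exists_C f i (m + 1)
  -- change the letter at place N
  obtain ⟨y, hy⟩ := exists_ne (v 0)
  obtain ⟨p, hp, hpC⟩ := hex (fun t => if t = N then y else v t)
  have hfp : f p = none ∨ f p = some (v 0) := by
    have := hpC 0 (by omega)
    simp only [Nat.add_zero] at this
    rwa [if_neg (by omega)] at this
  have hfpN : f (p + N) = none ∨ f (p + N) = some y := by
    have := hpC N (by omega)
    simpa using this
  have hper : f p = f (p + N) := by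
    rw [hpc p (by omega), Nat.add_comm]
  rw [← hper] at hfpN
  have hnone := none_of_two hy.symm hfp hfpN
  -- the same block covers v
  have hpv : C f p (m + 1) v := by
    intro t ht
    have := hpC t ht
    dsimp only at this
    split_ifs at this with htN
    · subst htN
      left
      rw [← hper]
      exact hnone
    · exact this
  have := huniq v i p hi hp hv hpv
  rw [this]
  exact hnone

end Core

/-! ## Finite partial words -/

section Finite

/-- the characters of `w` as a sequence -/
def chr (w : List (Option A)) (k : ℕ) : Option A := (w[k]?).getD none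

theorem chr_spec (w : List (Option A)) (k : ℕ) (h : k < w.length) : w[k]? = some (chr w k) := by
  unfold chr
  rw [List.getElem?_eq_getElem h]
  rfl

theorem coveredAt_iff [Nonempty A] (w : List (Option A)) (n i : ℕ) (u : ℕ → A) :
    CoveredAt w ((List.range n).map u) i ↔ i + n ≤ w.length ∧ C (chr w) i n u := by
  unfold CoveredAt
  rw [List.length_map, List.length_range]
  constructor
  · rintro ⟨h1, h2⟩
    refine ⟨h1, ?_⟩
    intro j hj
    have := h2 j hj
    rw [chr_spec w (i + j) (by omega), List.getElem?_map, List.getElem?_range hj] at this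
    simpa using this
  · rintro ⟨h1, h2⟩
    refine ⟨h1, ?_⟩
    intro j hj
    have := h2 j hj
    rw [chr_spec w (i + j) (by omega), List.getElem?_map, List.getElem?_range hj]
    simpa using this

variable {w : List (Option A)} {m : ℕ}

theorem length_ge [Nonempty A] (h : Universal (m + 1) w) : m + 1 ≤ w.length := by
  obtain ⟨i, ⟨h1, _⟩, _⟩ := h ((List.range (m + 1)).map (fun _ => Classical.arbitrary A)) (by simp)
  rw [List.length_map, List.length_range] at h1
  omega

theorem ex_of_universal [Nonempty A] (h : Universal (m + 1) w) (u : ℕ → A) :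
    ∃ i, i < w.length - m ∧ C (chr w) i (m + 1) u := by
  obtain ⟨i, hi, _⟩ := h ((List.range (m + 1)).map u) (by simp)
  rw [coveredAt_iff] at hi
  exact ⟨i, by omega, hi.2⟩

theorem uniq_of_universal [Nonempty A] (h : Universal (m + 1) w) (u : ℕ → A) (i j : ℕ)
    (hi : i < w.length - m) (hj : j < w.length - m) (h1 : C (chr w) i (m + 1) u)
    (h2 : C (chr w) j (m + 1) u) : i = j := by
  obtain ⟨p, _, hp⟩ := h ((List.range (m + 1)).map u) (by simp)
  have e1 := hp i ((coveredAt_iff w (m + 1) i u).2 ⟨by omega, h1⟩)
  have e2 := hp j ((coveredAt_iff w (m + 1) j u).2 ⟨by omega, h2⟩)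
  rw [e1, e2]

theorem pc_iff (hm : m ≤ w.length) :
    Pseudocyclic (m + 1) w ↔ ∀ j, j < m → chr w j = chr w (w.length - m + j) := by
  unfold Pseudocyclic
  rw [Nat.add_sub_cancel]
  constructor
  · intro h j hj
    have h1 : (w.take m)[j]? = (w.drop (w.length - m))[j]? := by rw [h]
    rw [List.getElem?_take, if_pos hj, List.getElem?_drop] at h1
    unfold chr
    rw [h1]
  · intro h
    apply List.ext_getElem?
    intro j
    rcases Nat.lt_or_ge j m with hj | hj
    · rw [List.getElem?_take, if_pos hj, List.getElem?_drop, chr_spec w j (by omega),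
        chr_spec w _ (by omega), h j hj]
    · rw [List.getElem?_take, if_neg (by omega), List.getElem?_drop]
      symm
      apply List.getElem?_eq_none
      omega

theorem countP_step (k i : ℕ) (h : i + k + 1 ≤ w.length) :
    (if (chr w i).isNone then 1 else 0) + ((w.drop (i + 1)).take k).countP Option.isNone =
      ((w.drop i).take k).countP Option.isNone + (if (chr w (i + k)).isNone then 1 else 0) := by
  have e1 : (w.drop i).take (k + 1) = chr w i :: (w.drop (i + 1)).take k := by
    rw [List.drop_eq_getElem_cons (show i < w.length by omega), List.take_succ_cons]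
    congr 1
    unfold chr
    rw [List.getElem?_eq_getElem (show i < w.length by omega)]
    rfl
  have e2 : (w.drop i).take (k + 1) = (w.drop i).take k ++ [chr w (i + k)] := by
    rw [List.take_add_one, List.getElem?_drop, chr_spec w (i + k) (by omega)]
    rfl
  have e3 := congrArg (List.countP Option.isNone) (e1.symm.trans e2)
  rw [List.countP_cons, List.countP_append, List.countP_singleton] at e3
  omega

theorem wd_iff (hT : m + 1 ≤ w.length) :
    WellDefined (m + 1) w ↔
      ∀ i, i + 1 < w.length - m → (chr w i = none ↔ chr w (i + 1 + m) = none) := by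
  constructor
  · rintro ⟨d, hd⟩ i hi
    have h1 := hd ((w.drop i).take (m + 1))
      ((List.take_prefix _ _).isInfix.trans (List.drop_suffix _ _).isInfix)
      (by rw [List.length_take, List.length_drop]; omega)
    have h2 := hd ((w.drop (i + 1)).take (m + 1))
      ((List.take_prefix _ _).isInfix.trans (List.drop_suffix _ _).isInfix)
      (by rw [List.length_take, List.length_drop]; omega)
    have h3 := countP_step (w := w) (m + 1) i (by omega)
    rw [h1, h2] at h3
    rw [show i + 1 + m = i + (m + 1) by ring, ← Option.isNone_iff_eq_none,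
      ← Option.isNone_iff_eq_none]
    split_ifs at h3 with ha hb hb
    · simp [ha, hb]
    · omega
    · omega
    · simp [ha, hb]
  · intro h
    refine ⟨((w.drop 0).take (m + 1)).countP Option.isNone, ?_⟩
    have key : ∀ i, i < w.length - m → ((w.drop i).take (m + 1)).countP Option.isNone =
        ((w.drop 0).take (m + 1)).countP Option.isNone := by
      intro i
      induction i with
      | zero => intro _; rfl
      | succ i ih =>
        intro hi
        rw [← ih (by omega)]
        have h3 := countP_step (w := w) (m + 1) i (by omega)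
        have h4 := h i hi
        rw [show i + 1 + m = i + (m + 1) by ring, ← Option.isNone_iff_eq_none,
          ← Option.isNone_iff_eq_none] at h4
        by_cases ha : (chr w i).isNone = true
        · rw [if_pos ha, if_pos (h4.1 ha)] at h3
          omega
        · rw [if_neg ha, if_neg (fun hb => ha (h4.2 hb))] at h3
          omega
    rintro b ⟨s, t, hst⟩ hb
    have hlen : w.length = s.length + b.length + t.length := by
      rw [← hst]; simp [Nat.add_assoc]
    rw [← key s.length (by omega)]
    congr 1
    rw [← hst, List.append_assoc, List.drop_left, ← hb, List.take_left]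

theorem cyclic_of_pc [Nontrivial A] (h : Universal (m + 1) w) (hnt : ¬ Trivial (m + 1) w)
    (hpc : Pseudocyclic (m + 1) w) : Cyclic (m + 1) w := by
  refine ⟨hpc, ?_⟩
  have hT := length_ge h
  rw [Nat.add_sub_cancel]
  by_contra hcon
  have hNm : w.length - m ≤ m := by omega
  rw [pc_iff (by omega)] at hpc
  have hall := all_none (f := chr w) (m := m) (N := w.length - m) (ex_of_universal h)
    (uniq_of_universal h) hpc hNm
  have hall2 : ∀ k, k < w.length → chr w k = none := by
    intro k
    induction k using Nat.strong_induction_on with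
    | _ k ih =>
      intro hk
      rcases Nat.lt_or_ge k (w.length - m) with h1 | h1
      · exact hall k h1
      · have := hpc (k - (w.length - m)) (by omega)
        rw [show w.length - m + (k - (w.length - m)) = k by omega] at this
        rw [← this]
        exact ih _ (by omega) (by omega)
  have hC : ∀ i, i < w.length - m → C (chr w) i (m + 1) (fun _ => Classical.arbitrary A) := by
    intro i hi j hj
    left
    exact hall2 _ (by omega)
  have hN1 : w.length = m + 1 := by
    by_contra hne
    have := uniq_of_universal h _ 0 1 (by omega) (by omega) (hC 0 (by omega)) (hC 1 (by omega))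
    omega
  apply hnt
  left
  apply List.ext_getElem?
  intro j
  rcases Nat.lt_or_ge j (m + 1) with hj | hj
  · rw [chr_spec w j (by omega), hall2 j (by omega), List.getElem?_replicate, if_pos hj]
  · rw [List.getElem?_eq_none (by omega), List.getElem?_replicate, if_neg (by omega)]

end Finite

/-- Let `A` be a finite alphabet with at least two letters and `n ≥ 1`. A nontrivial universal
partial word for `A^n` has well-defined diamondicity if and only if it is pseudocyclic, and it is
pseudocyclic if and only if it is cyclic. -/
theorem result (A : Type) [Finite A] [Nontrivial A] (n : ℕ) (hn : 1 ≤ n) (w : List (Option A))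
    (hw : Universal n w) (hnt : ¬ Trivial n w) :
    (WellDefined n w ↔ Pseudocyclic n w) ∧ (Pseudocyclic n w ↔ Cyclic n w) := by
  obtain ⟨m, rfl⟩ : ∃ m, n = m + 1 := ⟨n - 1, by omega⟩
  have hT := length_ge hw
  refine ⟨?_, fun h => cyclic_of_pc hw hnt h, fun h => h.1⟩
  rw [wd_iff hT, pc_iff (by omega)]
  constructor
  · intro h
    exact pc_of_wd (by omega) (ex_of_universal hw) (uniq_of_universal hw) h
  · intro h i hi
    exact wd_of_pc (ex_of_universal hw) (uniq_of_universal hw) h i hi

end Pool.Agent.Results.MP_e9025c_co.CyclicityEquivalence
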